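import Pool.Agent.Lib.RYP.AllA
import Pool.Agent.Lib.AP14.AllB
import Pool.Agent.Lib.KP.B_WT
import Pool.Agent.Lib.RY.Top

/-! Project ra2, step A for pairs. -/

open scoped Topology
open Complex Filter

namespace Pool.Agent.Lib.AP14

open Pool.Agent.Lib.SV (E)
open Pool.Agent.Lib.HS32 Pool.Agent.Lib.RA

variable {n : ℕ} {M : Mf n}

theorem exc_of_fac {W : M.Fam (Mat n)} {g : M.Fam ℂ} (h : Fac M W g) : Exc M W g := fun x => by
  obtain ⟨e, he, hx, N, f, h⟩ := h x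
  exact ⟨e, he, hx, N, f, fun a => h.mono fun w hw => (hw.2 a).1,
    h.mono fun w hw => ⟨hw.1, fun a => (hw.2 a).2⟩⟩

theorem wt_of_pr {L LB LE : M.Co} {m : ℕ} {f g : M.Fam ℂ} {φ φB φE : M.Fam ℝ}
    (h : Pr M L LB LE m f g) (a : M.WtC L φ) (b : M.WtC LB φB) (c : M.WtC LE φE) :
    M.Wt m (φ - φB + φE) :=
  ⟨fun e he z hz => ((a.sm e he z hz).sub (b.sm e he z hz)).add (c.sm e he z hz),
    fun e he e' he' x hx hx' => by
    have a1 := a.cmp e he e' he' x hx hx'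
    have b1 := b.cmp e he e' he' x hx hx'
    have c1 := c.cmp e he e' he' x hx hx'
    have r := h.rel e he e' he' x hx hx'
    have a0 := L.ne e he e' he' x hx hx'
    have b0 := LB.ne e he e' he' x hx hx'
    have c0 := LE.ne e he e' he' x hx hx'
    beta_reduce at a1 b1 c1 r a0 b0 c0
    have j0 : (M.J e e' x).det ^ m ≠ 0 := left_ne_zero_of_mul (r ▸ mul_ne_zero a0 c0)
    have r' := congrArg (fun t => Real.log (normSq t)) r
    simp only [map_mul] at r'
    rw [Real.log_mul (normSq_pos.2 a0).ne' (normSq_pos.2 c0).ne',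
      Real.log_mul (normSq_pos.2 j0).ne' (normSq_pos.2 b0).ne', map_pow, Real.log_pow] at r'
    simp only [Pi.add_apply, Pi.sub_apply]
    linarith⟩

/-- Step A. -/
theorem aA : St_A := by
  intro n M _ G φ r L LB LE m f g w hS hL hP hC h0 hr
  obtain ⟨φB, hB⟩ := KP.st_WT n M LB
  obtain ⟨φE, hE⟩ := KP.st_WT n M LE
  obtain ⟨c, hc, hl⟩ := hP.lct
  have hg : ∃ x, M.ev g x ≠ 0 := hP.den.nonempty
  exact aA0 n M G w _ φ r hS hr (hE.clo.smul _)
    (aAYP n m M LB LE f g φ φB φE c (by omega) hP.m0 hP.hB hP.hE hB hE hL.sm (wt_of_pr hP hL hB hE)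
      hc hl hg) hC.clo (hS.psd.trans hC.le) hC.pos
    (st_PL0 n r M G w _ LE g φE _ hS.kae hC.clo hS.wt.clo hS.psd hC.le hS.le hP.hE hE
      (by positivity) hg (exc_of_fac hC.fac))

end Pool.Agent.Lib.AP14
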