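import Pool.Agent.Lib.RYP.BlueA
import Pool.Agent.Lib.RAA.T_KQ
import Pool.Agent.Lib.HS76.Diag

/-! Project ra2, row A4s: the curvature of the norm of a tensor, with an error term. -/

open scoped Classical Topology ContDiff ComplexOrder Matrix
open Set MeasureTheory Complex Metric Filter

set_option linter.unusedVariables false

noncomputable section

namespace Pool.Agent.Lib.AP14

open Pool.Agent.Lib.SV (E)
open Pool.Agent.Lib.HS32 Pool.Agent.Lib.RAA

namespace A4s

variable {n : ℕ}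

theorem hess_log {U V : E n → ℝ} {z : E n} {a : ℝ} (ha : a ≠ 0) (hU : ContDiffAt ℝ ∞ U z)
    (h0 : U z ≠ 0) (h : ∀ᶠ w in 𝓝 z, V w = a * U w) :
    hess (fun w => ((Real.log (V w) : ℝ) : ℂ)) z = hess (fun w => ((Real.log (U w) : ℝ) : ℂ)) z := by
  have e : (fun w => ((Real.log (V w) : ℝ) : ℂ)) =ᶠ[𝓝 z]
      fun w => ((Real.log a : ℝ) : ℂ) + ((Real.log (U w) : ℝ) : ℂ) := by
    filter_upwards [h, hU.continuousAt.eventually_ne h0] with w h1 h2
    rw [h1, Real.log_mul ha h2, ofReal_add]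
  rw [hess_congr e, hess_add contDiffAt_const (cd_ofReal (hU.log h0)), hess_const, zero_add]

end A4s

open A4s in
theorem st_A4s (h4 : St_A4) : St_A4s := by
  intro n ρ T P s z hT hp hs h0 hc hP hR
  have p0 := hp.self_of_nhds
  obtain ⟨a1, -, a3, a4⟩ := (h4 n ρ).1 T s z hT hp hs
  rcases Nat.eq_zero_or_pos n with rfl | hn
  · obtain rfl : P = 0 := Subsingleton.elim _ _
    simpa [tp] using a4 h0 (hc.mono fun w hw => hw.2) (by simpa using hR)
  set τ : ℝ := ((T z)⁻¹ * P).trace.re with hτ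
  have τ0 : 0 ≤ τ := Mf.trace_inv_mul_nonneg p0 hP
  have c0 : 0 < 1 + τ := by positivity
  have d0 := Mf.pd_det_re p0
  have e1 : hess (ld fun w => (1 + τ) • T w) z = hess (ld T) z :=
    hess_log (a := (1 + τ) ^ n) (by positivity) (cd_re hT.det) d0.ne'
      (Eventually.of_forall fun w => by
        beta_reduce
        rw [TTop.rs, Matrix.det_smul, Fintype.card_fin, ← ofReal_pow, re_ofReal_mul])
  have e2 : hl (un ρ (fun w => (1 + τ) • T w) s) z = hl (un ρ T s) z :=
    hess_log (a := ((1 + τ)⁻¹) ^ ρ) (by positivity) a1 (a3.2 h0) (hp.mono fun w hw => by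
      have : ((1 + τ) • T w)ᵀ⁻¹ = (1 + τ)⁻¹ • (T w)ᵀ⁻¹ := by
        refine Matrix.inv_eq_right_inv ?_
        rw [Matrix.transpose_smul, Matrix.smul_mul, Matrix.mul_smul, smul_smul,
          mul_inv_cancel₀ c0.ne', one_smul,
          Matrix.mul_nonsing_inv _ (Mf.pd_det_ne hw.transpose).isUnit]
      simp only [un, this, (st_KQ ρ (Fin n) (Fin n) (Fin n)).2.2.2.1, hq, Matrix.smul_mulVec,
        dotProduct_smul, smul_re, smul_eq_mul])
  have b := ((h4 n ρ).1 (fun w => (1 + τ) • T w) s z (SmM.rsmul contDiffAt_const hT)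
    (hp.mono fun w hw => Mf.pd_rsmul hw c0) hs).2.2.2 h0
    (hc.mono fun w hw i j k => by
      rw [dM_rsmul _ hw.1, dM_rsmul _ hw.1, Matrix.smul_apply, Matrix.smul_apply, hw.2 i j k])
    (by
      have := hR.add (HS76.le_tr_smul p0 hP le_rfl)
      rw [e1]
      convert this using 1
      rw [← TTop.rs]
      module)
  rw [e2, TTop.rs, Matrix.det_smul, Matrix.adjugate_smul, Fintype.card_fin, ← ofReal_pow,
    re_ofReal_mul, tp, Matrix.smul_mul, Matrix.trace_smul, ← ofReal_pow, smul_eq_mul,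
    re_ofReal_mul] at b
  have e3 : tp (T z).adjugate P = (T z).det.re * τ := by
    have e : (T z).adjugate = (T z).det • (T z)⁻¹ := by
      rw [Matrix.inv_def, smul_smul, Ring.inverse_eq_inv', mul_inv_cancel₀ (Mf.pd_det_ne p0),
        one_smul]
    rw [tp, e, Matrix.smul_mul, Matrix.trace_smul, smul_eq_mul, ← Mf.herm_det p0.1, re_ofReal_mul,
      ofReal_re]
  obtain ⟨k, rfl⟩ : ∃ k, n = k + 1 := ⟨n - 1, by omega⟩
  rw [Nat.add_sub_cancel, pow_succ] at b
  rw [e3]
  refine le_of_mul_le_mul_left ?_ (pow_pos c0 k)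
  rw [tp]
  linarith

end Pool.Agent.Lib.AP14
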