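import Pool.Agent.Lib.RYP.BlueA
import Pool.Agent.Lib.RYA.B_A6d

/-! Project ra2, row A6d: the limit of the inequality. -/

open scoped Classical Topology ContDiff ComplexOrder Matrix
open Set MeasureTheory Complex Metric Filter

set_option linter.unusedVariables false

noncomputable section

namespace Pool.Agent.Lib.AP14

open Pool.Agent.Lib.SV (E)
open Pool.Agent.Lib.HS32 Pool.Agent.Lib.RA Pool.Agent.Lib.RAA Pool.Agent.Lib.RA28

theorem su_clo {n r : ℕ} {M : Mf n} {G : M.Fam (Mat n)} {φ : M.Fam ℝ} (hS : Su M G φ r) :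
    M.Clo (M.hw φ) := hS.wt.clo

theorem kae_add {n : ℕ} {M : Mf n} {G η : M.Fam (Mat n)} (hG : M.Kae G) (hη : M.Clo η)
    (h0 : M.Le 0 η) {ε : ℝ} (hε : 0 < ε) : M.Kae (η + ε • G) ∧ M.Le η (η + ε • G) := by
  have c1 := hη.add (hG.toClo.smul ε)
  have m1 : M.Met (η + ε • G) := (hG.toMet.smul hε).of_le c1.toForm fun e he z hz => by
    simpa using h0 e he z hz
  exact ⟨⟨c1, m1.pos⟩, fun e he z hz => by
    simpa using ((hG.toMet.smul hε).pos e he z hz).posSemidef⟩

theorem pa_lin' {n : ℕ} {M : Mf n} (G A S T : M.Fam (Mat n)) (c : ℝ) (x : M.X) :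
    pa M G A (c • S + T) x = c * pa M G A S x + pa M G A T x := by
  simp only [pa, Mf.ev, Pi.add_apply, Pi.smul_apply, Matrix.mul_add, Matrix.mul_smul,
    Matrix.trace_add, Matrix.trace_smul, add_div, add_re, real_smul, mul_div_assoc, re_ofReal_mul]

open A6d KA in
theorem st_A6d (hc : St_A6c) (hm : St_A6m) (hχ : St_CHI) (hT : St_TOP) : St_A6d := by
  intro n r ρ M _ G θ q φ V σ C hn hS hC hθ hA hL hq hQ
  have hG := hS.kae
  have hμ := mMU n M G hG.toMet
  have := hμ.2.1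
  have hη := su_clo hS
  obtain ⟨gO, g0, -⟩ := (hχ n M G V hG.toMet).2.2 _ σ hL.toAn
  obtain ⟨c, c0, -, hcθ⟩ := (mBD n M G hG.toMet).1 θ hθ.toForm
  have Gp : ∀ x, (M.ev G x).PosDef := fun x => at_ch (at_of_all hG.pos x)
  have ηp : ∀ x, (M.ev (M.hw φ) x).PosSemidef := fun x => by
    simpa [Mf.ev] using at_ch (at_of_all hS.psd x)
  have θp : ∀ x, (M.ev (c • G + θ) x).PosSemidef := fun x => by
    simpa [Mf.ev, add_comm] using at_ch (at_of_all hcθ x)
  have ηr : ∀ x, (M.ev (M.hw φ) x).rank ≤ r := fun x => at_ch (at_of_all hS.le x)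
  have Qp : ∀ x ∈ gd M V σ, (M.ev (C • G + q) x).PosSemidef := fun x hx => (at_ch (hQ.psd x hx)).1
  have ae : ∀ᵐ x ∂M.mu G, x ∈ gd M V σ := g0
  have ten : ∀ {T} (O : Set M.X), M.Ten T → TenOn M O T := fun O h =>
    ⟨fun x _ => at_of_all h.sm x, fun e he e' he' x hx hx' _ => h.cmp e he e' he' x hx hx'⟩
  have den : ∀ {T} (O : Set M.X), IsOpen O → M.Clo T →
      DenOn M O (tA M r G T) ∧ DenOn M O (aj M T) := fun O hO h =>
    have := (hT n 0 r M G O hG hO).1 _ (ten O h.toTen) fun x _ e he hx =>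
      ⟨at_of_all h.herm x e he hx, at_of_all h.cl x e he hx⟩
    ⟨this.1, this.2.1⟩
  have intS : ∀ A S, DenOn M univ A → M.Ten S → Integrable (pa M G A S) (M.mu G) :=
    fun A S hA hS => hμ.2.2.2.2.1 ℝ _ (continuous_iff_continuousAt.2 fun x => smAt_cont
      ((hT n 0 r M G univ hG isOpen_univ).2.2.2 A S hA (ten _ hS) x trivial).1)
  have cdq : ∀ T, M.Ten T → Continuous (M.dq G T) := fun T h => (sm_dq hG.toMet h).continuous
  have hk := fun (ε : ℝ) (hε : 0 < ε) => kae_add hG hη hS.psd hε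
  have hc' := fun ε hε => hc n ρ M G _ _ θ q V σ C hG (hk ε hε).1 (hk ε hε).2 hA hL hq hQ
  have : CompactSpace M.X := Mf.Cpt.cpt
  obtain ⟨K, hK⟩ := (isCompact_range (cdq _ (hk 1 one_pos).1.toTen)).bddAbove
  have hK' : ∀ x, ((M.ev G x + M.ev (M.hw φ) x).det / (M.ev G x).det).re ≤ K := fun x => by
    have := hK ⟨x, rfl⟩
    simpa [Mf.dq, Mf.ev, add_comm] using this
  have P := fun (Q : M.Fam (Mat n)) x (h : (M.ev Q x).PosSemidef) (ε : ℝ) h0 h1 =>
    pw (ε := ε) (Gp x) (ηp x) (ηr x) hn h h0 h1 (hK' x)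
  have iT := fun T (h : M.Kae T) => (hm n M G T _ V _ σ hG.toMet h hL.toAn hQ).1
  have nn : ∀ x ∈ gd M V σ, 0 ≤ pa M G (tA M r G (M.hw φ)) (C • G + q) x := fun x hx =>
    pq_nn (Gp x) (top (Gp x) (ηp x) (ηr x)).psd (Qp x hx)
  have i1 : Integrable (pa M G (tA M r G (M.hw φ)) (C • G + q)) (M.mu G) := by
    refine (iT _ (hk 1 one_pos).1).mono' ?_ ?_
    · rw [← Measure.restrict_eq_self_of_ae_mem ae]
      exact ContinuousOn.aestronglyMeasurable (fun x hx => (smAt_cont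
        ((hT n 0 r M G _ hG gO).2.2.2 _ _ (den _ gO hη).1 hQ.ten x hx).1).continuousWithinAt)
        gO.measurableSet
    · filter_upwards [ae] with x hx
      rw [Real.norm_of_nonneg (nn x hx)]
      have := (P _ x (Qp x hx) 1 one_pos le_rfl).1
      rwa [one_pow, one_mul] at this
  refine ⟨i1, nn, ?_⟩
  have dA := (den _ isOpen_univ hη).1
  have tθ := ((hG.toClo.smul c).add hθ).toTen
  set L : ℝ := K * ∫ x, pa M G (aj M G) (C • G + q) x ∂M.mu G + ρ * (K * (M.mu G).real univ) +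
    ρ * (K * ∫ x, pa M G (aj M G) (c • G + θ) x ∂M.mu G)
  have key : ∀ ε : ℝ, 0 < ε → ε ≤ 1 → C * ∫ x, pa M G (tA M r G (M.hw φ)) G x ∂M.mu G -
      ρ * ∫ x, pa M G (tA M r G (M.hw φ)) θ x ∂M.mu G ≤
      ∫ x, pa M G (tA M r G (M.hw φ)) (C • G + q) x ∂M.mu G + ε * L := by
    intro ε h0 h1
    have hi := hc' ε h0
    have hk := (hk ε h0).1
    have dk := (den _ isOpen_univ hk.toClo).2
    have e0 : 0 < ε ^ (n - 1 - r) := by positivity
    have b1 : ε ^ (n - 1 - r) * ∫ x, pa M G (tA M r G (M.hw φ)) G x ∂M.mu G ≤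
        ∫ x, pa M G (aj M (M.hw φ + ε • G)) G x ∂M.mu G := by
      rw [← integral_const_mul]
      exact integral_mono ((intS _ _ dA hG.toTen).const_mul _)
        (intS _ _ dk hG.toTen) fun x => (P G x (Gp x).posSemidef ε h0 h1).1
    have b2 : ∫ x, M.dq G (M.hw φ + ε • G) x ∂M.mu G ≤
        (M.mu G).real univ * (ε ^ (n - 1 - r) * (ε * K)) := by
      rw [← smul_eq_mul, ← integral_const]
      exact integral_mono (hμ.2.2.2.2.1 ℝ _ (cdq _ hk.toTen)) (integrable_const _)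
        fun x => (P G x (Gp x).posSemidef ε h0 h1).2.2
    have b3 : ∫ x, pa M G (aj M (M.hw φ + ε • G)) (C • G + q) x ∂M.mu G ≤
        ε ^ (n - 1 - r) * (∫ x, pa M G (tA M r G (M.hw φ)) (C • G + q) x ∂M.mu G +
          ε * K * ∫ x, pa M G (aj M G) (C • G + q) x ∂M.mu G) := by
      rw [← integral_const_mul, ← integral_add i1 ((iT _ hG).const_mul _), ← integral_const_mul]
      refine integral_mono_ae (iT _ hk) ((i1.add ((iT _ hG).const_mul _)).const_mul _) ?_
      filter_upwards [ae] with x hx using (P _ x (Qp x hx) ε h0 h1).2.1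
    have b4 : ∫ x, pa M G (aj M (M.hw φ + ε • G)) θ x ∂M.mu G ≤
        ε ^ (n - 1 - r) * (∫ x, pa M G (tA M r G (M.hw φ)) θ x ∂M.mu G +
          ε * K * ∫ x, pa M G (aj M G) (c • G + θ) x ∂M.mu G) := by
      have j1 := intS _ _ dA hθ.toTen
      have j2 := (intS _ _ (den _ isOpen_univ hG.toClo).2 tθ).const_mul (ε * K)
      rw [← integral_const_mul, ← integral_add j1 j2, ← integral_const_mul]
      refine integral_mono (intS _ _ dk hθ.toTen) ((j1.add j2).const_mul _) fun x => ?_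
      have p1 : pa M G (aj M (M.hw φ + ε • G)) (c • G + θ) x ≤ ε ^ (n - 1 - r) *
          (pa M G (tA M r G (M.hw φ)) (c • G + θ) x + ε * K * pa M G (aj M G) (c • G + θ) x) :=
        (P _ x (θp x) ε h0 h1).2.1
      have p2 : ε ^ (n - 1 - r) * pa M G (tA M r G (M.hw φ)) G x ≤
          pa M G (aj M (M.hw φ + ε • G)) G x := (P G x (Gp x).posSemidef ε h0 h1).1
      rw [pa_lin', pa_lin'] at p1
      have p3 := mul_le_mul_of_nonneg_left p2 c0.le
      beta_reduce
      linarith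
    refine le_of_mul_le_mul_left ?_ e0
    have c1 := mul_le_mul_of_nonneg_left b1 hC.le
    have c2 := mul_le_mul_of_nonneg_left b2 (Nat.cast_nonneg (α := ℝ) ρ)
    have c3 := mul_le_mul_of_nonneg_left b4 (Nat.cast_nonneg (α := ℝ) ρ)
    simp only [L]
    linarith
  refine le_of_forall_pos_le_add fun δ hδ => ?_
  have h1 : 0 < |L| + 1 := by positivity
  refine (key (min 1 (δ / (|L| + 1))) (by positivity) (min_le_left _ _)).trans ?_
  gcongr
  calc min 1 (δ / (|L| + 1)) * L ≤ min 1 (δ / (|L| + 1)) * (|L| + 1) := by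
        gcongr
        linarith [le_abs_self L]
    _ ≤ δ / (|L| + 1) * (|L| + 1) := by gcongr; exact min_le_right _ _
    _ = δ := by field_simp

end Pool.Agent.Lib.AP14
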