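import Pool.Agent.Lib.RYP.K81

/-! Project ra2, step A: the defect has small mass. -/

open scoped Classical Topology ContDiff ComplexOrder Matrix ENNReal
open Set MeasureTheory Complex Metric Filter

set_option linter.unusedVariables false

noncomputable section

namespace Pool.Agent.Lib.AP14

open Pool.Agent.Lib.SV (E)
open Pool.Agent.Lib.HS32 Pool.Agent.Lib.RA Pool.Agent.Lib.RAA RAA.Q81

theorem K81.lint_le {X : Type} [MeasurableSpace X] {μ : Measure X} {d g₁ g₂ : X → ℝ} {a b : ℝ}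
    (hd : ∀ᵐ x ∂μ, 0 ≤ d x) (h0 : ∀ᵐ x ∂μ, 0 ≤ g₂ x) (e : ∀ x, g₁ x = d x + g₂ x)
    (hi : Integrable g₂ μ) (h : ∫⁻ x, ENNReal.ofReal (g₁ x) ∂μ ≤ ENNReal.ofReal a)
    (hab : a - b ≤ ∫ x, g₂ x ∂μ) : ∫⁻ x, ENNReal.ofReal (d x) ∂μ ≤ ENNReal.ofReal b := by
  have h1 : ∫⁻ x, ENNReal.ofReal (g₁ x) ∂μ =
      ∫⁻ x, ENNReal.ofReal (d x) ∂μ + ENNReal.ofReal (∫ x, g₂ x ∂μ) := by
    rw [ofReal_integral_eq_lintegral_ofReal hi h0,
      ← lintegral_add_right' _ hi.1.aemeasurable.ennreal_ofReal]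
    refine lintegral_congr_ae ?_
    filter_upwards [hd, h0] with x a b
    rw [e, ENNReal.ofReal_add a b]
  rw [h1] at h
  have h2 := ENNReal.le_sub_of_add_le_right ENNReal.ofReal_ne_top h
  rw [← ENNReal.ofReal_sub _ (integral_nonneg_of_ae h0)] at h2
  exact h2.trans (ENNReal.ofReal_le_ofReal (by linarith))

theorem st_EQ (hP : RAA.St_POS) (h5 : St_A5b) (h6 : St_A6d) (h1 : St_FB1) (h2 : St_FB2)
    (hC : St_CHI) : St_EQ := by
  intro n r ρ m M _ G θ q φ f V F σ C hr h ho hf hl hC0 hq hQ hθ hA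
  obtain ⟨hW, ha⟩ := gs_good hC h1 h ho hf hl.toAn
  obtain ⟨i6, p6, l6⟩ := h6 n r ρ M G θ q φ V σ C hr h hC0 hθ hA hl.toLn hq hQ
  obtain ⟨C₀, b2⟩ := h2 n r ρ m M G φ f h ho hf
  have sf := (h1 n r ρ m M G φ f h ho hf).2.1
  have df : ∀ x, pa M G (tA M r G (M.hw φ)) (hg M f + C • G) x =
      pa M G (tA M r G (M.hw φ)) (hg M f - q) x + pa M G (tA M r G (M.hw φ)) (C • G + q) x :=
    fun x => by rw [← pa_add, sub_add_add_cancel]
  have ps : ∀ x ∈ gs M φ r f V σ, 0 ≤ pa M G (tA M r G (M.hw φ)) (hg M f - q) x := by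
    rintro x ⟨⟨a, s, b, c⟩, d, e⟩
    have := hP n r ρ m M G q φ f V F σ h ho hf hl hq a _ b c
    rw [(V.e a).left_inv s] at this
    exact (this d e).1
  have i5 := h5 n r m M G φ f C C₀ h hC0.le hf.nn (fun x hx => ⟨sf x hx, b2 x hx⟩)
    (ha.mono fun x hx => ⟨hx.2.2, by rw [df]; exact add_nonneg (ps x hx) (p6 x hx.1)⟩)
  exact K81.lint_le (ha.mono ps) (ha.mono fun x hx => p6 x hx.1) df i6 i5 l6

end Pool.Agent.Lib.AP14
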