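import Pool.Agent.Lib.RYP.K81

/-! Project ra2, step A: the defect vanishes where the limit form is positive. -/

open scoped Classical Topology ContDiff ComplexOrder Matrix ENNReal
open Set MeasureTheory Complex Metric Filter

set_option linter.unusedVariables false

noncomputable section

namespace Pool.Agent.Lib.AP14

open Pool.Agent.Lib.SV (E)
open Pool.Agent.Lib.HS32 Pool.Agent.Lib.RA Pool.Agent.Lib.RAA RAA.Q81

namespace K81

theorem fatou {X : Type} [TopologicalSpace X] [MeasurableSpace X] [BorelSpace X]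
    {μ : Measure X} [μ.IsOpenPosMeasure] {W : Set X} (hW : IsOpen W) (ha : ∀ᵐ x ∂μ, x ∈ W)
    {d : ℝ → X → ℝ} {K : ℝ} (c : ∀ t, ContinuousOn (d t) W) (ct : ∀ x, Continuous fun t => d t x)
    (h : ∀ t ∈ Ioc (0 : ℝ) 1, ∫⁻ x, ENNReal.ofReal (d t x) ∂μ ≤ ENNReal.ofReal (K * t)) :
    ∀ x ∈ W, d 0 x ≤ 0 := by
  have hm : ∀ t, AEMeasurable (fun x => ENNReal.ofReal (d t x)) μ := fun t => by
    have := (c t).aemeasurable (μ := μ) hW.measurableSet
    rw [Measure.restrict_eq_self_of_ae_mem ha] at this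
    exact this.ennreal_ofReal
  have t0 : Tendsto (fun j : ℕ => 1 / ((j : ℝ) + 1)) atTop (𝓝 0) :=
    tendsto_one_div_add_atTop_nhds_zero_nat
  have h1 := lintegral_liminf_le' (u := atTop) fun j : ℕ => hm (1 / ((j : ℝ) + 1))
  have h2 : ∀ x, liminf (fun j : ℕ => ENNReal.ofReal (d (1 / ((j : ℝ) + 1)) x)) atTop =
      ENNReal.ofReal (d 0 x) := fun x =>
    ((ENNReal.continuous_ofReal.tendsto _).comp (((ct x).tendsto 0).comp t0)).liminf_eq
  have h3 : Tendsto (fun j : ℕ => ENNReal.ofReal (K * (1 / ((j : ℝ) + 1)))) atTop (𝓝 0) := by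
    have := (ENNReal.continuous_ofReal.tendsto _).comp (t0.const_mul K)
    rwa [mul_zero, ENNReal.ofReal_zero] at this
  have h4 : Tendsto (fun j : ℕ => ∫⁻ x, ENNReal.ofReal (d (1 / ((j : ℝ) + 1)) x) ∂μ) atTop
      (𝓝 0) := tendsto_of_tendsto_of_tendsto_of_le_of_le tendsto_const_nhds h3
    (fun _ => zero_le) fun j => h _ ⟨Nat.one_div_pos_of_nat, by
      rw [div_le_one (by positivity)]; linarith [Nat.cast_nonneg (α := ℝ) j]⟩
  simp only [h2] at h1
  rw [h4.liminf_eq, nonpos_iff_eq_zero, lintegral_eq_zero_iff' (hm 0)] at h1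
  have h5 := Measure.eqOn_open_of_ae_eq (μ := μ) (ae_restrict_of_ae h1) hW
    (ENNReal.continuous_ofReal.comp_continuousOn (c 0)) continuousOn_const
  exact fun x hx => ENNReal.ofReal_eq_zero.1 (h5 hx)

theorem cont_t {n r : ℕ} {M : Mf n} (G Y η D : M.Fam (Mat n)) (x : M.X) :
    Continuous fun t : ℝ => pa M G (tA M r (Y + t • G) η) D x := by
  refine continuous_re.comp (Continuous.div_const (Continuous.matrix_trace
    (Continuous.matrix_mul ?_ continuous_const)) _)
  change Continuous fun t : ℝ => RA28.topS r (M.ev Y x + t • M.ev G x) (M.ev η x)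
  unfold RA28.topS
  refine continuous_finsetSum _ fun m _ => Continuous.fun_const_smul (Continuous.matrix_adjugate ?_) _
  fun_prop

end K81

theorem st_LIMT (hE : St_EQ) (hI : St_IND) (hP : St_POS) (hG : St_FG) (hQ : St_CQ) (h1 : St_FB1)
    (hC : St_CHI) : St_LIMT := by
  intro n r ρ m M _ G Y θ q φ f V F σ hr h ho hf hl hq hθ hA hY h0 ⟨K, hK⟩ x₀ a₀ b₀ c₀ hp
  obtain ⟨hW, ha⟩ := gs_good hC h1 h ho hf hl.toAn
  have hm := h.kae.toMet
  have := (mMU n M G hm).2.2.1
  have td := K81.ten_def hC h1 h ho hf hl.toAn hq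
  have le := K81.fatou hW ha (K := ρ * K)
    (d := fun t => pa M G (tA M r (Y + t • G) (M.hw φ)) (hg M f - q))
    (fun t => K81.cont_pa h.kae hW (K81.den (hY.add (h.kae.toClo.smul t)) (K81.clo h) _) td)
    (K81.cont_t G Y _ _) (fun t ht => ?_) x₀ ⟨a₀, b₀, c₀⟩
  · simp only [zero_smul, add_zero] at le
    obtain ⟨a, s, b, c⟩ := a₀
    have := hP n r ρ m M G q φ f V F σ h ho hf hl hq a _ b c
    rw [(V.e a).left_inv s] at this
    exact le_antisymm le (this b₀ c₀ Y hp).1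
  have kt := K81.kae_add h.kae hY h0 ht.1
  set T := Y + t • G with hT
  have ht' : Su M T φ r := ⟨h.toPot, kt, h.psd⟩
  obtain ⟨f', hf'⟩ := hG n r ρ m M T φ ht' ho
  obtain ⟨q', C, C0, hq', hqf⟩ := hQ n ρ M V σ T hl.toLn kt
  have e := hE n r ρ m M T θ q' φ f' V F σ C hr ht' ho hf' hl C0 hq' hqf hθ hA
  have cg := fun A S x => K81.pa_chg (hm.ev_pos x) (kt.toMet.ev_pos x) A S
  rw [chg hm kt.toMet] at e
  simp only [← cg] at e
  rw [((mMU n M G hm).2.2.2.2.2.2 T kt.toMet).1, lintegral_withDensity_eq_lintegral_mul_non_measurable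
    _ (sm_dq hm kt.toTen).continuous.measurable.ennreal_ofReal
    (Eventually.of_forall fun _ => ENNReal.ofReal_lt_top)] at e
  refine le_trans (le_of_eq (lintegral_congr_ae (ha.mono fun x hx => ?_))) (e.trans
    (ENNReal.ofReal_le_ofReal ?_))
  · beta_reduce
    rw [Pi.mul_apply, ← ENNReal.ofReal_mul (K81.dq_pos (hm.ev_pos x) (kt.toMet.ev_pos x)).le, ← cg,
      K81.pa_congr (hI n r ρ m M G T q q' φ f f' V F σ h ht' ho hf hf' hl hq hq' x hx.1 hx.2.1
        hx.2.2).2]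
  · rw [mul_assoc]
    exact mul_le_mul_of_nonneg_left (hK t ht) (Nat.cast_nonneg ρ)

end Pool.Agent.Lib.AP14
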