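import Pool.Agent.Lib.RYP.K81

/-! Project ra2, step A: the key inequality for an arbitrary positive matrix. -/

open scoped Classical Topology ContDiff ComplexOrder Matrix
open Set MeasureTheory Complex Metric Filter

set_option linter.unusedVariables false

noncomputable section

namespace Pool.Agent.Lib.AP14

open Pool.Agent.Lib.SV (E)
open Pool.Agent.Lib.HS32 Pool.Agent.Lib.RA Pool.Agent.Lib.RAA

open RAA.POS in
theorem st_POS (hO : St_ORD) (hN : St_NF) (hF : St_FB1) (hK : St_KEY) (hS : St_SPN) :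
    St_POS := by
  intro n r ρ m M _ G q φ f V F σ hSu hOd hFn hHl hCq a z hz hσ hX hf Y hY
  have he := V.mem a
  have po := hHl.po a
  have hzt : z ∈ (V.e a).target := po.sub hz
  set e := V.e a with hee
  set x := e.symm z with hx
  have hxs : x ∈ e.source := e.map_target hzt
  have hez : e x = z := e.right_inv hzt
  obtain ⟨o1, o2⟩ := (hO n r M G φ hSu).2.2 e _ _ (F a) po
  have loc := o2 ρ m hOd
  obtain ⟨f1, f2, -⟩ := hF n r ρ m M G φ f hSu hOd hFn
  have hbl : bl M V a ∈ 𝓝 z := isOpen_ball.mem_nhds hz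
  have key : ∀ J : Fin r → Fin n, (hJ (F a) J z).det ≠ 0 → ∀ v, M.hw φ e z *ᵥ v = 0 →
      0 ≤ nq ((hg M f - q) e z) v ∧ (nq ((hg M f - q) e z) v = 0 → al (F a) J z v = 0) := by
    intro J hJ v hv
    obtain ⟨B, hB⟩ := hN n r ρ m (F a) _ _ z J loc hz hJ
    have k := (hK n r ρ m (F a) _ _ z J B (G e) (σ a) (fun w => f (e.symm w)) loc hz hJ hB
      (hSu.kae.sm e he z hzt)
      (by filter_upwards [e.open_target.mem_nhds hzt] with w hw using hSu.kae.pos e he w hw)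
      (KA.holN_of_on isOpen_ball (hHl.hol a) hz) hσ
      (by filter_upwards [hbl] with w hw using hHl.mem a w hw)
      ((f1 e _ _ (F a) po z hz).1 J B hJ hB) hf).2 v (by rw [o1 z hz, hv])
    have e1 : (hg M f - q) e z = hl (fun w => f (e.symm w)) z - hl (un ρ (G e) (σ a)) z := by
      rw [← hCq.eq a z hz hσ]
      rfl
    rwa [e1]
  have hc := Mf.ch_mem (M := M) x
  have hxc := Mf.mem_ch (M := M) x
  have hgd : x ∈ gd M V σ := ⟨a, hxs, by rw [hez]; exact hz, by rw [hez]; exact hσ⟩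
  have hlog : SmAt M (fun y => Real.log (f y)) x :=
    KA.smAt_comp (K := Real.log) (Real.contDiffAt_log.2 hf) (f2 x hX)
  have t1 : M.ev (hg M f - q) x = (M.J e (M.ch x) x)ᴴ * (hg M f - q) e z * M.J e (M.ch x) x := by
    have a1 := KA.hs_cmp hlog he hc hxs hxc
    have a2 := hCq.ten.cmp e he _ hc x hxs hxc hgd
    rw [hez] at a1 a2
    show hg M f (M.ch x) (M.ch x x) - q (M.ch x) (M.ch x x) = _ * (hg M f e z - q e z) * _
    rw [Matrix.mul_sub, Matrix.sub_mul, ← a2]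
    exact congrArg (· - _) a1
  have t2 : M.ev (M.hw φ) x = (M.J e (M.ch x) x)ᴴ * M.hw φ e z * M.J e (M.ch x) x := by
    have a1 := (K81.clo hSu).cmp e he _ hc x hxs hxc
    beta_reduce at a1
    rwa [hez] at a1
  have psd : ∀ e' ∈ M.C, ∀ w ∈ e'.target, (M.hw φ e' w).PosSemidef := fun e' he' w hw => by
    simpa using hSu.psd e' he' w hw
  obtain ⟨κ, u, hκ, u1, u2, u3⟩ := lin (D := (hg M f - q) e z)
    hY (psd _ hc _ (Mf.ch_tgt x)) hX (KA.det_J he hc hxs hxc) t2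
  have hκ' := mul_pos (K81.dq_pos (hSu.kae.toMet.ev_pos x) hY) hκ
  have hpa : pa M G (tA M r Y (M.hw φ)) (hg M f - q) x =
      M.dq G Y x * κ * ∑ i, nq ((hg M f - q) e z) (u i) := by
    rw [K81.pa_chg (hSu.kae.toMet.ev_pos x) hY, mul_assoc, ← u3, pa, t1]
    rfl
  have hrk : (M.hw φ e z).rank = r := by
    rw [← hez, ← KA.rank_ev (K81.clo hSu).toTen he hxs]
    exact hX
  obtain ⟨J₀, hJ₀⟩ := (hS n).2.1 r _ (psd e he z hzt).1 hrk
  have hJ₀' : (hJ (F a) J₀ z).det ≠ 0 := by rwa [hJ, o1 z hz]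
  have nn : ∀ i, 0 ≤ nq ((hg M f - q) e z) (u i) := fun i => (key J₀ hJ₀' _ (u1 i)).1
  rw [hpa]
  refine ⟨mul_nonneg hκ'.le (Finset.sum_nonneg fun i _ => nn i), fun h0 J hJ' v hv => ?_⟩
  have h1 := (Finset.sum_eq_zero_iff_of_nonneg fun i _ => nn i).1
    ((mul_eq_zero.1 h0).resolve_left hκ'.ne')
  obtain ⟨c, rfl⟩ := u2 v (by rw [← o1 z hz, hv])
  exact al_sum _ _ _ _ _ fun i => (key J hJ' _ (u1 i)).2 (h1 i (Finset.mem_univ i))

end Pool.Agent.Lib.AP14
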