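import Pool.Agent.Lib.RYP.B_A0
import Pool.Agent.Lib.RYP.B_A4s
import Pool.Agent.Lib.RYP.B_A6r
import Pool.Agent.Lib.RYP.B_A6c
import Pool.Agent.Lib.RYP.B_A6d
import Pool.Agent.Lib.RYP.B_EQ
import Pool.Agent.Lib.RYP.B_IND
import Pool.Agent.Lib.RYP.B_LIMT
import Pool.Agent.Lib.RYP.B_POS
import Pool.Agent.Lib.RYA.B_A4
import Pool.Agent.Lib.RYA.B_A5
import Pool.Agent.Lib.RYA.B_A6a
import Pool.Agent.Lib.RYA.B_A6b
import Pool.Agent.Lib.RYA.B_A6m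
import Pool.Agent.Lib.RYA.B_CHI
import Pool.Agent.Lib.RYA.B_CQ
import Pool.Agent.Lib.RYA.B_FB1
import Pool.Agent.Lib.RYA.B_FB2
import Pool.Agent.Lib.RYA.B_FG
import Pool.Agent.Lib.RYA.B_FL
import Pool.Agent.Lib.RYA.B_KEY
import Pool.Agent.Lib.RYA.B_LNT
import Pool.Agent.Lib.RYA.B_LN
import Pool.Agent.Lib.RYA.B_MIX
import Pool.Agent.Lib.RYA.B_NF
import Pool.Agent.Lib.RYA.B_ORD
import Pool.Agent.Lib.RYA.B_PSI
import Pool.Agent.Lib.RYA.B_PT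
import Pool.Agent.Lib.RYA.B_PTE
import Pool.Agent.Lib.RYA.B_RIC
import Pool.Agent.Lib.RYA.B_SPN
import Pool.Agent.Lib.RYA.B_XI
import Pool.Agent.Lib.RAA.T_LO
import Pool.Agent.Lib.RY.B_PZ

/-! Project ra2, step A: the blocks that use the analytic weight, together. -/

namespace Pool.Agent.Lib.AP14

open Pool.Agent.Lib.RA

theorem rXI : RAA.St_XI := RAA.st_XI RAA.st_SPN
theorem rPT : RAA.St_PT := RAA.st_PT RAA.st_PTE RAA.st_SPN rXI RAA.st_LO st_PZ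
theorem rORD : RAA.St_ORD := RAA.st_ORD rXI rPT
theorem rLN : RAA.St_LN := RAA.st_LN rXI rPT RAA.st_SPN
theorem rNF : RAA.St_NF := RAA.st_NF RAA.st_SPN
theorem rFG : RAA.St_FG := RAA.st_FG rORD rNF rPT RAA.st_FL RAA.st_SPN
theorem rFB1 : RAA.St_FB1 := RAA.st_FB1 rORD rNF RAA.st_FL RAA.st_RIC RAA.st_SPN rXI RAA.st_CHI
theorem rFB2 : RAA.St_FB2 := RAA.st_FB2 rXI RAA.st_FL
theorem rTOP : St_TOP := st_TOP st_CH2
theorem rA6m : RAA.St_A6m := RAA.st_A6m RAA.st_MIX RAA.st_CHI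
theorem rA6a : RAA.St_A6a := RAA.st_A6a rA6m RAA.st_TOP2
theorem rA6b : RAA.St_A6b := RAA.st_A6b rTOP RAA.st_CHI RAA.st_MIX
theorem rCQ : RAA.St_CQ := RAA.st_CQ RAA.st_A4 RAA.st_LNT
theorem rKEY : RAA.St_KEY := RAA.st_KEY RAA.st_RIC RAA.st_FL RAA.st_A4
theorem rPOS : RAA.St_POS := RAA.st_POS rORD rNF rFB1 rKEY RAA.st_SPN

theorem aA6r : St_A6r :=
  st_A6r rTOP RAA.st_CHI (st_A4s RAA.st_A4) rCQ (RAA.st_PSI RAA.st_LNT RAA.st_A4) rA6m rA6b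
theorem aA6d : St_A6d := st_A6d (st_A6c aA6r rA6a) rA6m RAA.st_CHI rTOP
theorem aPOS : St_POS := st_POS rORD rNF rFB1 rKEY RAA.st_SPN
theorem aEQ : St_EQ := st_EQ rPOS RAA.st_A5b aA6d rFB1 rFB2 RAA.st_CHI
theorem aIND : St_IND := st_IND rORD rNF rFB1 RAA.st_FL RAA.st_A4 RAA.st_SPN
theorem aLIMT : St_LIMT := st_LIMT aEQ aIND aPOS rFG rCQ rFB1 RAA.st_CHI

/-- Step A. -/
theorem aA0 : St_A0 :=
  st_A0 rORD rLN rCQ rFG rFB1 aPOS aLIMT RAA.st_KER RAA.st_SPN RAA.st_CHI RAA.st_RIC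

end Pool.Agent.Lib.AP14
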