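import Pool.Agent.Lib.RYP.BlueA
import Pool.Agent.Lib.RYA.B_EQ
import Pool.Agent.Lib.RYA.B_POS

/-! Project ra2, step A: tools for the change of the reference metric. -/

open scoped Classical Topology ContDiff ComplexOrder Matrix ENNReal
open Set MeasureTheory Complex Metric Filter

set_option linter.unusedVariables false

noncomputable section

namespace Pool.Agent.Lib.AP14.K81

open Pool.Agent.Lib.SV (E)
open Pool.Agent.Lib.HS32 Pool.Agent.Lib.RA Pool.Agent.Lib.RAA

variable {n r : ℕ} {M : Mf n} {G Y A T η : M.Fam (Mat n)} {φ : M.Fam ℝ} {x : M.X} {O : Set M.X}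

/-- The only use of the weight condition. -/
theorem clo (h : Su M G φ r) : M.Clo (M.hw φ) := h.wt.clo

theorem pa_chg (hG : (M.ev G x).PosDef) (hY : (M.ev Y x).PosDef) (A T : M.Fam (Mat n)) :
    pa M G A T x = M.dq G Y x * pa M Y A T x := by
  have h1 := Mf.pd_det_re hG
  have h2 := Mf.pd_det_re hY
  rw [pa, pa, Mf.dq, ← Mf.herm_det hG.1, ← Mf.herm_det hY.1, div_ofReal_re, div_ofReal_re,
    div_ofReal_re, ofReal_re]
  field_simp

theorem dq_pos (hG : (M.ev G x).PosDef) (hY : (M.ev Y x).PosDef) : 0 < M.dq G Y x := by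
  rw [Mf.dq, ← Mf.herm_det hG.1, div_ofReal_re]
  exact div_pos (Mf.pd_det_re hY) (Mf.pd_det_re hG)

theorem pa_congr {S : M.Fam (Mat n)} (h : M.ev S x = M.ev T x) : pa M G A S x = pa M G A T x := by
  rw [pa, pa, h]

theorem den (hY : M.Clo Y) (hη : M.Clo η) (O : Set M.X) : DenOn M O (tA M r Y η) := by
  refine ⟨fun x _ e he hs => RA28.sm_topS (hY.sm.at he hs) (hη.sm.at he hs),
    fun e he e' he' x hs hs' _ => ?_,
    fun x _ e he hs => RA28.herm_topS (hY.herm.at he hs) (hη.herm.at he hs),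
    fun x _ e he hs => RA28.div_topS (hY.sm.at he hs) (hη.sm.at he hs) (hY.cl.at he hs)
      (hη.cl.at he hs)⟩
  simp only [tA]
  rw [hY.cmp e he e' he' x hs hs', hη.cmp e he e' he' x hs hs', RA28.topS_conj, BTop.adj_den]

theorem ten_sub {S : M.Fam (Mat n)} (hS : TenOn M O S) (hT : TenOn M O T) : TenOn M O (S - T) :=
  ⟨fun x hx e he hs => (hS.sm x hx e he hs).sub (hT.sm x hx e he hs),
    fun e he e' he' x a b c => by
      simp only [Pi.sub_apply]
      rw [hS.cmp e he e' he' x a b c, hT.cmp e he e' he' x a b c, Matrix.mul_sub, Matrix.sub_mul]⟩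

/-- The defect is a tensor on the good set. -/
theorem ten_def [M.Cpt] (hC : St_CHI) (h1 : St_FB1) {ρ m : ℕ} {f : M.X → ℝ} {V : M.Cov}
    {σ : Fin V.r → E n → (Fin ρ → Fin n) → ℂ} {q : M.Fam (Mat n)} (h : Su M G φ r)
    (ho : Od M φ ρ m) (hf : Fn M G φ r ρ m f) (ha : An M V σ) (hq : Cq M V ρ σ G q) :
    TenOn M (Q81.gs M φ r f V σ) (hg M f - q) :=
  ten_sub ((st_TOP st_CH2 n r r M G _ h.kae (Q81.gs_good hC h1 h ho hf ha).1).2.2.1 _ fun x hx =>
    KA.smAt_comp (K := Real.log) (Real.contDiffAt_log.2 hx.2.2)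
      ((h1 n r ρ m M G φ f h ho hf).2.1 x hx.2.1)).1 (Q81.ten_mono hq.ten fun x hx => hx.1)

theorem cont_pa (hG : M.Kae G) (hO : IsOpen O) (hA : DenOn M O A) (hT : TenOn M O T) :
    ContinuousOn (pa M G A T) O := fun x hx =>
  (KA.smAt_cont ((st_TOP st_CH2 n 0 0 M G O hG hO).2.2.2 A T hA hT x hx).1).continuousWithinAt

theorem kae_add (hG : M.Kae G) (hY : M.Clo Y) (h0 : M.Le 0 Y) {t : ℝ} (ht : 0 < t) :
    M.Kae (Y + t • G) := by
  have c1 := hY.add (hG.toClo.smul t)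
  have m1 : M.Met (Y + t • G) := (hG.toMet.smul ht).of_le c1.toForm fun e he z hz => by
    simpa using h0 e he z hz
  exact ⟨c1, m1.pos⟩

theorem open_pos (hG : M.Met G) (hY : M.Clo Y) (h0 : M.Le 0 Y) :
    IsOpen {x | (M.ev Y x).PosDef} := by
  have : {x | (M.ev Y x).PosDef} = {x | M.dq G Y x ≠ 0} := by
    ext x
    refine ⟨fun h => (dq_pos (hG.ev_pos x) h).ne', fun h => ?_⟩
    have h1 : (M.ev Y x).PosSemidef := by simpa [Mf.ev] using Mf.AllOn.ch h0 x
    refine h1.posDef_iff_det_ne_zero.2 fun e => h ?_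
    rw [Mf.dq, e, zero_div, zero_re]
  rw [this]
  exact isOpen_ne_fun (sm_dq hG hY.toTen).continuous continuous_const

end Pool.Agent.Lib.AP14.K81
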